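import Mathlib

/-! # Asymptotic learning in a deterministic network (MP_a79c01_pr): definitions and statements

Histories of the first `n` agents are the sets of those agents `m < n` with action `1`.
`p` is the accuracy of the symmetric binary private signals. -/

set_option autoImplicit false

open Finset

namespace Q100.SL

/-- probability of the signal (or bit) `s` in state `θ`, for accuracy `p` -/
noncomputable def sg (p : ℝ) (θ s : Bool) : ℝ := if s = θ then p else 1 - p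

/-- total weight of the histories in `range n` which agree with `z` on `C` -/
noncomputable def mg (w : Finset ℕ → ℝ) (n : ℕ) (C z : Finset ℕ) : ℝ :=
  ∑ x ∈ (range n).powerset with x ∩ C = z ∩ C, w x

/-- the Bayesian action with weights `a true`, `a false` and private signal `s` -/
noncomputable def act (p : ℝ) (a : Bool → ℝ) (s : Bool) : Bool :=
  decide (a false * sg p false s ≤ a true * sg p true s)

/-- probability in state `θ` of the action `b` -/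
noncomputable def pact (p : ℝ) (a : Bool → ℝ) (θ b : Bool) : ℝ :=
  ∑ s : Bool, if act p a s = b then sg p θ s else 0

/-- law of the history of the first `n` agents, `N j` being the neighbourhood of agent `j`:
`law p N n θ z` is the probability in state `θ` that the history is `z ∩ range n` -/
noncomputable def law (p : ℝ) (N : ℕ → Finset ℕ) : ℕ → Bool → Finset ℕ → ℝ
  | 0, _, _ => 1
  | n + 1, θ, z => law p N n θ z *
      pact p (fun t => mg (law p N n t) n (N n) z) θ (decide (n ∈ z))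

/-- the neighbourhoods of the first `n` agents are admissible -/
def Val (N : ℕ → Finset ℕ) (n : ℕ) : Prop := ∀ j < n, N j ⊆ range j

/-- the likelihood ratio of `z` on `C` is in the window where a private signal decides -/
def Win (p : ℝ) (N : ℕ → Finset ℕ) (n : ℕ) (C z : Finset ℕ) : Prop :=
  (1 - p) * mg (law p N n true) n C z < p * mg (law p N n false) n C z ∧
  (1 - p) * mg (law p N n false) n C z < p * mg (law p N n true) n C z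

/-! ## Realizable families of bits -/

/-- the network `N` up to `n` is continued by `N'` up to `n'`; the agents `o i` then have, given any
history `x` up to `n` with `x ∩ C = c`, the joint law of the `X i` under `W` -/
structure Fits (p : ℝ) (N : ℕ → Finset ℕ) (n : ℕ) (C c : Finset ℕ) {Ω ι : Type} [Fintype Ω]
    (W : Bool → Ω → ℝ) (X : ι → Ω → Bool) (N' : ℕ → Finset ℕ) (n' : ℕ) (o : ι → ℕ)
    (S : Finset ℕ) : Prop where
  le : n ≤ n'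
  ext : ∀ j < n, N' j = N j
  nb : ∀ j, n ≤ j → j < n' → C ⊆ N' j ∧ N' j ⊆ C ∪ Ico n j
  out : ∀ i, n ≤ o i ∧ o i < n'
  sc : S ⊆ Ico n n'
  scn : ∀ j ∈ S, N' j = C
  lw : ∀ x ⊆ range n, x ∩ C = c → ∀ θ (F : (ι → Bool) → ℝ),
    ∑ z ∈ (range n').powerset with z ∩ range n = x,
      law p N' n' θ z * F (fun i => decide (o i ∈ z)) =
      law p N n θ x * ∑ ω, W θ ω * F (fun i => X i ω)
  one : ∀ z ⊆ range n', z ∩ C = c → law p N' n' true z ≠ 0 → S ⊆ z → ∀ i, o i ∈ z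
  zero : ∀ z ⊆ range n', z ∩ C = c → law p N' n' true z ≠ 0 → Disjoint S z → ∀ i, o i ∉ z

/-- the family `X` of bits with law `W` is realizable -/
def Rl (p : ℝ) {Ω ι : Type} [Fintype Ω] (W : Bool → Ω → ℝ) (X : ι → Ω → Bool) : Prop :=
  ∀ (N : ℕ → Finset ℕ) (n : ℕ) (C c : Finset ℕ), Val N n → C ⊆ range n → c ⊆ C →
    Win p N n C c → ∃ (N' : ℕ → Finset ℕ) (n' : ℕ) (o : ι → ℕ) (S : Finset ℕ),
      Fits p N n C c W X N' n' o S

/-- a bit of accuracy `a` is realizable -/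
def RlBit (p a : ℝ) : Prop := Rl p (fun θ (s : Bool) => sg a θ s) (fun (_ : Unit) s => s)

/-- the weight of a pattern of observed bits -/
noncomputable def wt {Ω ι κ : Type} [Fintype Ω] [Fintype κ] (W : Bool → Ω → ℝ) (X : ι → Ω → Bool)
    (J : κ → ι) (θ : Bool) (y : κ → Bool) : ℝ :=
  ∑ ω, if (∀ k, X (J k) ω = y k) then W θ ω else 0

/-- SCO: a single scout -/
def S_scout : Prop := ∀ p : ℝ, 1 / 2 < p → p < 1 → RlBit p p

/-- EMP: the empty family -/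
def S_empty : Prop := ∀ p : ℝ, Rl p (fun _ (_ : Unit) => (1 : ℝ)) (fun (i : Empty) _ => i.elim)

/-- PRO: independent families -/
def S_prod : Prop := ∀ (p : ℝ), 1 / 2 < p → p < 1 → ∀ (Ω Ω' ι ι' : Type) [Fintype Ω] [Fintype Ω']
  (W : Bool → Ω → ℝ) (X : ι → Ω → Bool) (W' : Bool → Ω' → ℝ) (X' : ι' → Ω' → Bool),
  Rl p W X → Rl p W' X' →
  Rl p (fun θ (ω : Ω × Ω') => W θ ω.1 * W' θ ω.2)
    (Sum.elim (fun i ω => X i ω.1) (fun i ω => X' i ω.2))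

/-- LAW: only the joint law matters, and outputs may be dropped or repeated -/
def S_law : Prop := ∀ (p : ℝ) (Ω Ω' ι ι' : Type) [Fintype Ω] [Fintype Ω']
  (W : Bool → Ω → ℝ) (X : ι → Ω → Bool) (W' : Bool → Ω' → ℝ) (X' : ι' → Ω' → Bool)
  (r : ι' → ι), Rl p W X →
  (∀ θ (F : (ι' → Bool) → ℝ),
    ∑ ω, W θ ω * F (fun i => X (r i) ω) = ∑ ω, W' θ ω * F (fun i => X' i ω)) →
  Rl p W' X'

/-- AGE: a new agent who observes the outputs `J k` and applies the rule `φ` -/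
def S_agent : Prop := ∀ (p : ℝ), 1 / 2 < p → p < 1 → ∀ (Ω ι κ : Type) [Fintype Ω] [Fintype κ]
  (W : Bool → Ω → ℝ) (X : ι → Ω → Bool) (J : κ → ι) (φ : (κ → Bool) → Bool → Bool),
  Rl p W X → (∀ b s, φ (fun _ => b) s = b) →
  (∀ y s, φ y s = true →
    p * (wt W X J false y * sg p false s) ≤ (1 - p) * (wt W X J true y * sg p true s)) →
  (∀ y s, φ y s = false →
    p * (wt W X J true y * sg p true s) ≤ (1 - p) * (wt W X J false y * sg p false s)) →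
  Rl p (fun θ (ω : Ω × Bool) => W θ ω.1 * sg p θ ω.2)
    (fun (i : Option ι) ω => i.elim (φ (fun k => X (J k) ω.1) ω.2) (fun i => X i ω.1))

/-- `Z` is a decision taken on observed bits alone, whatever the private signal -/
def Adm (p : ℝ) {Ω ι : Type} [Fintype Ω] (W : Bool → Ω → ℝ) (X : ι → Ω → Bool)
    (Z : Ω → Bool) : Prop :=
  ∃ (κ : Type) (_ : Fintype κ) (J : κ → ι) (φ : (κ → Bool) → Bool),
    (∀ ω, Z ω = φ (fun k => X (J k) ω)) ∧ (∀ b, φ (fun _ => b) = b) ∧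
    (∀ y, φ y = true → p ^ 2 * wt W X J false y ≤ (1 - p) ^ 2 * wt W X J true y) ∧
    (∀ y, φ y = false → p ^ 2 * wt W X J true y ≤ (1 - p) ^ 2 * wt W X J false y)

/-- ADM: finitely many decisions on the same observed bits -/
def S_adm : Prop := ∀ (p : ℝ), 1 / 2 < p → p < 1 → ∀ (Ω ι : Type) [Fintype Ω]
  (W : Bool → Ω → ℝ) (X : ι → Ω → Bool), Rl p W X → ∀ (K : ℕ) (Z : Fin K → Ω → Bool),
  (∀ k, Adm p W X (Z k)) → Rl p W (Sum.elim X Z)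

/-- BIT: independent copies of a bit -/
def S_bits : Prop := ∀ (p : ℝ), 1 / 2 < p → p < 1 → ∀ a : ℝ, RlBit p a → ∀ m : ℕ,
  Rl p (fun θ (u : Fin m → Bool) => ∏ i, sg a θ (u i)) (fun i u => u i)

/-! ## Majorities -/

/-- probability that the majority of `m` independent bits of accuracy `a` is right -/
noncomputable def maj (m : ℕ) (a : ℝ) : ℝ :=
  ∑ j ∈ range (m + 1) with m < 2 * j, (m.choose j : ℝ) * a ^ j * (1 - a) ^ (m - j)

/-- number of ones -/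
def ones {m : ℕ} (u : Fin m → Bool) : ℕ := (univ.filter fun i => u i = true).card

/-- CNT: the law of the number of ones -/
def S_count : Prop := ∀ (m : ℕ) (a : ℝ) (F : ℕ → ℝ),
  ∑ u : Fin m → Bool, (∏ i, sg a true (u i)) * F (ones u) =
    ∑ j ∈ range (m + 1), (m.choose j : ℝ) * a ^ j * (1 - a) ^ (m - j) * F j

/-- MA7: majority of six scouts and the own signal -/
def S_maj7 : Prop := ∀ p : ℝ, 1 / 2 < p → p < 1 → RlBit p (maj 7 p)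

/-- MA3: majority of three bits -/
def S_maj3 : Prop := ∀ p : ℝ, 1 / 2 < p → p < 1 → ∀ x : ℝ, 1 / 2 < x → x < 1 → RlBit p x →
  p ^ 2 * (1 - x) ≤ (1 - p) ^ 2 * x → RlBit p (3 * x ^ 2 - 2 * x ^ 3)

/-! ## The gadget -/

/-- agreement or default -/
def rr (x y u : Bool) : Bool := if x = y then x else u

/-- the action of `d` -/
def dd (v₀ v₁ o₁ o₂ u : Bool) : Bool := if u = rr v₀ v₁ u then rr o₁ o₂ u else rr v₀ v₁ u

/-- hidden bits of a gadget copy: `o₁`, `o₂`, `u` -/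
abbrev Oc (m : ℕ) : Type := Bool × Bool × (Fin m → Bool)

/-- their law -/
noncomputable def Wc (R a : ℝ) (m : ℕ) (θ : Bool) (ω : Oc m) : ℝ :=
  sg R θ ω.1 * sg R θ ω.2.1 * ∏ i, sg a θ (ω.2.2 i)

/-- the action of `g` -/
def gg (m : ℕ) (v₀ v₁ : Bool) (ω : Oc m) : Bool :=
  decide (m < 2 * ones (fun i => dd v₀ v₁ ω.1 ω.2.1 (ω.2.2 i)))

/-- the inequalities behind the gadget; `a`, `R`, `P` are the accuracies of the bits `u`, `o`, `v` -/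
structure Par (p P R a : ℝ) (m : ℕ) : Prop where
  hp : 1 / 2 < p
  hp1 : p < 1
  ha : 1 / 2 < a
  ha1 : a < 1
  hR : 1 / 2 < R
  hR1 : R < 1
  hP : 1 / 2 < P
  hP1 : P < 1
  odd : Odd m
  c1 : p ^ 2 * (1 - a) ≤ (1 - p) ^ 2 * a
  c2 : p ^ 2 * ((1 - (1 - P) ^ 2) * a * (1 - R) ^ 2) ≤ (1 - p) ^ 2 * ((1 - P ^ 2) * (1 - a) * R ^ 2)
  c3 : p ^ 2 * ((1 - P) ^ 2 * a * R ^ 2) ≤ (1 - p) ^ 2 * (P ^ 2 * (1 - a) * (1 - R) ^ 2)
  c4 : p ^ 2 * (4 * P * (1 - P) * R * (1 - R) * (1 - a) +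
      (P ^ 2 * (1 - R) ^ 2 + (1 - P) ^ 2 * R ^ 2) * a) ≤
    (1 - p) ^ 2 * (4 * P * (1 - P) * R * (1 - R) * a +
      (P ^ 2 * (1 - R) ^ 2 + (1 - P) ^ 2 * R ^ 2) * (1 - a))
  c4' : p ^ 2 * (P ^ 2 * (1 - R) ^ 2 + (1 - P) ^ 2 * R ^ 2) ≤
    (1 - p) ^ 2 * (4 * P * (1 - P) * R * (1 - R))
  c5 : p ^ 2 * ((1 - P) ^ 2 * (1 - R ^ 2) + 2 * P * (1 - P) * (1 - R) ^ 2) ≤
    (1 - p) ^ 2 * (P ^ 2 * (1 - (1 - R) ^ 2) + 2 * P * (1 - P) * R ^ 2)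

/-- the bits of a gadget copy added to a family `X` whose first two members are the `v`-bits -/
noncomputable def Wx {Ω : Type} (W : Bool → Ω → ℝ) (R a : ℝ) (m : ℕ) (θ : Bool) (ω : Ω × Oc m) : ℝ :=
  W θ ω.1 * Wc R a m θ ω.2

/-- the marginal law of the `v`-bits -/
def MargV {Ω : Type} [Fintype Ω] (P : ℝ) (W : Bool → Ω → ℝ) (V₀ V₁ : Ω → Bool) : Prop :=
  ∀ θ (F : Bool → Bool → ℝ), ∑ ω, W θ ω * F (V₀ ω) (V₁ ω) =
    ∑ b₀, ∑ b₁, sg P θ b₀ * sg P θ b₁ * F b₀ b₁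

/-- ADF: the agents `f` -/
def S_admf : Prop := ∀ (p P R a : ℝ) (m : ℕ), Par p P R a m → ∀ (Ω : Type) [Fintype Ω]
  (W : Bool → Ω → ℝ) (V₀ V₁ : Ω → Bool), MargV P W V₀ V₁ → ∀ (ι : Type)
  (X : ι → Ω × Oc m → Bool) (i₀ i₁ i₂ : ι) (k : Fin m),
  (∀ ω, X i₀ ω = V₀ ω.1) → (∀ ω, X i₁ ω = V₁ ω.1) → (∀ ω, X i₂ ω = ω.2.2.2 k) →
  Adm p (Wx W R a m) X (fun ω => rr (V₀ ω.1) (V₁ ω.1) (ω.2.2.2 k))

/-- ADD: the agents `d` -/
def S_admd : Prop := ∀ (p P R a : ℝ) (m : ℕ), Par p P R a m → ∀ (Ω : Type) [Fintype Ω]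
  (W : Bool → Ω → ℝ) (V₀ V₁ : Ω → Bool), MargV P W V₀ V₁ → ∀ (ι : Type)
  (X : ι → Ω × Oc m → Bool) (i₀ i₁ i₂ i₃ : ι) (k : Fin m),
  (∀ ω, X i₀ ω = ω.2.1) → (∀ ω, X i₁ ω = ω.2.2.1) → (∀ ω, X i₂ ω = ω.2.2.2 k) →
  (∀ ω, X i₃ ω = rr (V₀ ω.1) (V₁ ω.1) (ω.2.2.2 k)) →
  Adm p (Wx W R a m) X (fun ω => dd (V₀ ω.1) (V₁ ω.1) ω.2.1 ω.2.2.1 (ω.2.2.2 k))

/-- ADG: the agent `g` -/
def S_admg : Prop := ∀ (p P R a : ℝ) (m : ℕ), Par p P R a m → ∀ (Ω : Type) [Fintype Ω]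
  (W : Bool → Ω → ℝ) (V₀ V₁ : Ω → Bool), MargV P W V₀ V₁ → ∀ (ι : Type)
  (X : ι → Ω × Oc m → Bool) (i : Fin m → ι),
  (∀ k ω, X (i k) ω = dd (V₀ ω.1) (V₁ ω.1) ω.2.1 ω.2.2.1 (ω.2.2.2 k)) →
  Adm p (Wx W R a m) X (fun ω => gg m (V₀ ω.1) (V₁ ω.1) ω.2)

/-- COP: a further copy of the gadget -/
def S_copy : Prop := ∀ (p P R a : ℝ) (m : ℕ), Par p P R a m → RlBit p R → RlBit p a →
  ∀ (Ω : Type) [Fintype Ω] (W : Bool → Ω → ℝ) (X : ℕ → Ω → Bool), MargV P W (X 0) (X 1) →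
  Rl p W X → ∀ T : ℕ, Rl p (Wx W R a m)
    (fun i ω => if i = T then gg m (X 0 ω.1) (X 1 ω.1) ω.2 else X i ω.1)

/-- KAP: the law of `g` given `v₀ = v₁ = b` -/
def S_kappa : Prop := ∀ (R a : ℝ) (m : ℕ), Odd m → ∀ θ b : Bool,
  (∑ ω : Oc m, if gg m b b ω = b then Wc R a m θ ω else 0) =
    if θ = b then 1 - (1 - R) ^ 2 * maj m a else 1 - R ^ 2 * (1 - maj m a)

/-- existence of the gadgets -/
def Gadget (p : ℝ) : Prop := ∃ α₁ α₀ κ₁ κ₀ : ℝ, 0 < α₀ ∧ α₀ ≤ α₁ ∧ 0 < κ₁ ∧ κ₁ < κ₀ ∧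
  (1 - p) ^ 2 * κ₀ < p ^ 2 * κ₁ ∧ ∀ T : ℕ, ∃ (Ω : Type) (_ : Fintype Ω) (W : Bool → Ω → ℝ)
    (X : ℕ → Ω → Bool), Rl p W X ∧ ∀ t ≤ T, ∀ b θ : Bool,
      (∑ ω, if (∀ i < t + 2, X i ω = b) then W θ ω else 0) =
        if θ = b then α₁ * κ₁ ^ t else α₀ * κ₀ ^ t

/-- NUM: the numbers -/
def S_num : Prop := ∃ P R a : ℝ, RlBit (51 / 100) P ∧ RlBit (51 / 100) R ∧ RlBit (51 / 100) a ∧
  Par (51 / 100) P R a 15 ∧ 1 - (1 - R) ^ 2 * maj 15 a < 1 - R ^ 2 * (1 - maj 15 a) ∧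
  (49 / 100) ^ 2 * (1 - R ^ 2 * (1 - maj 15 a)) < (51 / 100) ^ 2 * (1 - (1 - R) ^ 2 * maj 15 a)

/-- GAD -/
def S_gadget : Prop := Gadget (51 / 100)

/-! ## Blocks -/

/-- a realized family, seen from a later network; `m` is a time before the start of the family -/
structure Blk (p : ℝ) (N : ℕ → Finset ℕ) (n m : ℕ) (C c : Finset ℕ) {Ω ι : Type} [Fintype Ω]
    (W : Bool → Ω → ℝ) (X : ι → Ω → Bool) (o : ι → ℕ) (S : Finset ℕ) : Prop where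
  out : ∀ i, m ≤ o i ∧ o i < n
  sc : S ⊆ Ico m n
  scn : ∀ j ∈ S, N j = C
  one : ∀ z ⊆ range n, z ∩ C = c → law p N n true z ≠ 0 → S ⊆ z → ∀ i, o i ∈ z
  zero : ∀ z ⊆ range n, z ∩ C = c → law p N n true z ≠ 0 → Disjoint S z → ∀ i, o i ∉ z
  mgl : ∀ z ⊆ range n, z ∩ C = c → ∀ θ (I : Finset ι),
    mg (law p N n θ) n (range m ∪ I.image o) z =
      mg (law p N n θ) n (range m) z *
        ∑ ω, if (∀ i ∈ I, X i ω = decide (o i ∈ z)) then W θ ω else 0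

/-- BLK: a realized family is a block, also for later networks -/
def S_blk : Prop := ∀ (p : ℝ), 1 / 2 < p → p < 1 → ∀ (Ω ι : Type) [Fintype Ω]
  (W : Bool → Ω → ℝ) (X : ι → Ω → Bool) (N N' N'' : ℕ → Finset ℕ) (n n' n'' m : ℕ)
  (C c : Finset ℕ) (o : ι → ℕ) (S : Finset ℕ), Fits p N n C c W X N' n' o S → m ≤ n →
  C ⊆ range m → Val N'' n'' → n' ≤ n'' → (∀ j < n', N'' j = N' j) →
  Blk p N'' n'' m C c W X o S

/-- BLS: blocks for finitely many contexts, `K` of them for each -/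
def S_blocks : Prop := ∀ (p : ℝ), 1 / 2 < p → p < 1 → ∀ (Ω ι : Type) [Fintype Ω]
  (W : Bool → Ω → ℝ) (X : ι → Ω → Bool), Rl p W X → ∀ (N : ℕ → Finset ℕ) (n : ℕ), Val N n →
  ∀ (A : Finset (Finset ℕ)) (f : Finset ℕ → Finset ℕ),
  (∀ x ∈ A, x ⊆ range n ∧ f x ⊆ range n ∧ Win p N n (f x) x) → ∀ K : ℕ,
  ∃ (N' : ℕ → Finset ℕ) (n' : ℕ), n ≤ n' ∧ (∀ j < n, N' j = N j) ∧ Val N' n' ∧
    (∀ j, n ≤ j → j < n' → ∃ x ∈ A, f x ⊆ N' j) ∧
    ∀ x ∈ A, ∃ (o : Fin K → ι → ℕ) (S : Fin K → Finset ℕ),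
      (∀ k, Blk p N' n' n (f x) (x ∩ f x) W X (o k) (S k)) ∧
      ∀ k l, k ≠ l → Disjoint (S k) (S l)

/-- SCS: scouts for finitely many contexts, `M` of them for each -/
def S_scouts : Prop := ∀ (N : ℕ → Finset ℕ) (n : ℕ), Val N n →
  ∀ (A : Finset (Finset ℕ)) (f : Finset ℕ → Finset ℕ), (∀ x ∈ A, f x ⊆ range n) → ∀ M : ℕ,
  ∃ (N' : ℕ → Finset ℕ) (n' : ℕ), n ≤ n' ∧ (∀ j < n, N' j = N j) ∧ Val N' n' ∧
    (∀ j, n ≤ j → j < n' → ∃ x ∈ A, N' j = f x) ∧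
    ∀ x ∈ A, ∃ S ⊆ Ico n n', S.card = M ∧ ∀ j ∈ S, N' j = f x

/-- SMG: scouts are independent private signals -/
def S_scoutmg : Prop := ∀ (p : ℝ), 1 / 2 < p → p < 1 → ∀ (N : ℕ → Finset ℕ) (n m : ℕ), Val N n →
  ∀ (C Z z : Finset ℕ), m ≤ n → C ⊆ range m → Z ⊆ Ico m n → (∀ j ∈ Z, N j = C) →
  z ⊆ range n → Win p N n C z → ∀ θ : Bool,
  mg (law p N n θ) n (range m ∪ Z) z =
    mg (law p N n θ) n (range m) z * ∏ j ∈ Z, sg p θ (decide (j ∈ z))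

/-! ## Bhattacharyya coefficients -/

/-- the Bhattacharyya coefficient of the actions in `C` -/
noncomputable def BC (p : ℝ) (N : ℕ → Finset ℕ) (n : ℕ) (C : Finset ℕ) : ℝ :=
  ∑ c ∈ C.powerset, √(mg (law p N n true) n C c * mg (law p N n false) n C c)

/-- BCM: observing more -/
def S_bcmono : Prop := ∀ (p : ℝ), 1 / 2 < p → p < 1 → ∀ (N : ℕ → Finset ℕ) (n : ℕ), Val N n →
  ∀ C D : Finset ℕ, C ⊆ D → D ⊆ range n → BC p N n D ≤ BC p N n C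

/-- BCS: scouts make the coefficient small -/
def S_bcscouts : Prop := ∀ (p : ℝ), 1 / 2 < p → p < 1 → ∀ (N N' : ℕ → Finset ℕ) (n n' : ℕ),
  n ≤ n' → (∀ j < n, N' j = N j) → Val N' n' → ∀ (f : Finset ℕ → Finset ℕ) (M : ℕ),
  (∀ x ⊆ range n, law p N n true x ≠ 0 → f x ⊆ range n ∧ Win p N n (f x) x ∧
    ∃ S ⊆ Ico n n', S.card = M ∧ ∀ j ∈ S, N' j = f x) →
  BC p N' n' (range n') ≤ (2 * √(p * (1 - p))) ^ M

/-- `P₀(a_j = 1) + P₁(a_j = 0)` -/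
noncomputable def err (p : ℝ) (N : ℕ → Finset ℕ) (j : ℕ) : ℝ :=
  ∑ z ∈ (range (j + 1)).powerset, law p N (j + 1) (decide (j ∉ z)) z

/-- ERR: the error of an agent -/
def S_err : Prop := ∀ (p : ℝ), 1 / 2 < p → p < 1 → ∀ (N : ℕ → Finset ℕ) (j : ℕ),
  Val N (j + 1) → err p N j ≤ BC p N j (N j)

/-! ## The stages -/

/-- every history with positive probability has a good observation set -/
def Stage (p : ℝ) (N : ℕ → Finset ℕ) (n : ℕ) (ε : ℝ) : Prop :=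
  Val N n ∧ ∀ x ⊆ range n, law p N n true x ≠ 0 →
    ∃ C ⊆ range n, Win p N n C x ∧ BC p N n C ≤ ε

/-- OF1: zeros bring the ratio back -/
def S_off1 : Prop := ∀ (p : ℝ), 1 / 2 < p → p < 1 → ∀ (R R' : ℝ) (K : ℕ), 0 < R' →
  p * R' ≤ (1 - p) * R → (1 - p) ^ K * R ≤ p ^ K * R' → ∃ k ≤ K,
    (1 - p) * (R * (1 - p) ^ k) < p * (R' * p ^ k) ∧ (1 - p) * (R' * p ^ k) < p * (R * (1 - p) ^ k)

/-- OF2: the gadget brings the ratio back -/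
def S_off2 : Prop := ∀ (p : ℝ), 1 / 2 < p → p < 1 → ∀ (α₁ α₀ κ₁ κ₀ : ℝ), 0 < α₀ → α₀ ≤ α₁ →
  0 < κ₁ → κ₁ < κ₀ → (1 - p) ^ 2 * κ₀ < p ^ 2 * κ₁ → ∀ K : ℕ, ∃ T : ℕ, ∀ (R R' : ℝ), 0 < R' →
  p * R' ≤ (1 - p) * R → (1 - p) ^ K * R ≤ p ^ K * R' → ∃ t ≤ T,
    (1 - p) * (R * (α₁ * κ₁ ^ t)) < p * (R' * (α₀ * κ₀ ^ t)) ∧
    (1 - p) * (R' * (α₀ * κ₀ ^ t)) < p * (R * (α₁ * κ₁ ^ t))

/-- ATO: the new observation sets -/
def S_atom : Prop := ∀ (p : ℝ), 1 / 2 < p → p < 1 → ∀ (α₁ α₀ κ₁ κ₀ : ℝ), 0 < α₀ → α₀ ≤ α₁ →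
  0 < κ₁ → κ₁ < κ₀ → (1 - p) ^ 2 * κ₀ < p ^ 2 * κ₁ → ∀ m : ℕ, ∃ T : ℕ,
  ∀ (Ω : Type) [Fintype Ω] (W : Bool → Ω → ℝ) (X : ℕ → Ω → Bool),
  (∀ t ≤ T, ∀ b θ : Bool, (∑ ω, if (∀ i < t + 2, X i ω = b) then W θ ω else 0) =
        if θ = b then α₁ * κ₁ ^ t else α₀ * κ₀ ^ t) →
  ∀ (N : ℕ → Finset ℕ) (n : ℕ), m ≤ n → Val N n → ∀ (C z : Finset ℕ), C ⊆ range m →
  z ⊆ range n → law p N n true z ≠ 0 → Win p N n C z →
  ∀ (o : Fin m → ℕ → ℕ) (S : Fin m → Finset ℕ),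
  (∀ k, Blk p N n m C (z ∩ C) W X (o k) (S k)) → (∀ k l, k ≠ l → Disjoint (S k) (S l)) →
  ∃ D ⊆ range n, range m ⊆ D ∧ Win p N n D z

/-- STP: the stage step -/
def S_step : Prop := ∀ (p : ℝ), 1 / 2 < p → p < 1 → Gadget p → ∀ (N : ℕ → Finset ℕ) (n : ℕ)
  (ε : ℝ), Stage p N n ε → ∀ ε' : ℝ, 0 < ε' → ∃ (N' : ℕ → Finset ℕ) (n' : ℕ), n < n' ∧
    (∀ j < n, N' j = N j) ∧ Stage p N' n' ε' ∧ ∀ j, n ≤ j → j < n' → err p N' j ≤ ε

/-- INF: the infinite network -/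
def S_inf : Prop := ∀ (p : ℝ), 1 / 2 < p → p < 1 → Gadget p → ∃ N : ℕ → Finset ℕ,
  (∀ n, N n ⊆ range n) ∧ Filter.Tendsto (fun j => err p N j) Filter.atTop (nhds 0)

/-! ## The model -/

open MeasureTheory

/-- the model of the problem, with symmetric binary signals of accuracy `p`: the state `θ` has the
uniform prior, the signals `s n` are i.i.d. given the state, and the action `a n` is optimal for the
posterior given `s n` and the actions of the agents in `N n` (ties are broken towards `true`) -/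
structure Model (p : ℝ) (N : ℕ → Finset ℕ) {Ω : Type} [MeasurableSpace Ω] (P : Measure Ω)
    (θ : Ω → Bool) (s a : ℕ → Ω → Bool) : Prop where
  prob : IsProbabilityMeasure P
  mθ : Measurable θ
  ms : ∀ n, Measurable (s n)
  signals : ∀ (b : Bool) (n : ℕ) (σ : ℕ → Bool), P.real {ω | θ ω = b ∧ ∀ i < n, s i ω = σ i} =
    1 / 2 * ∏ i ∈ range n, (if σ i = b then p else 1 - p)
  bayes : ∀ n ω, a n ω = true ↔
    P.real {ω' | θ ω' = false ∧ s n ω' = s n ω ∧ ∀ m ∈ N n, a m ω' = a m ω} ≤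
    P.real {ω' | θ ω' = true ∧ s n ω' = s n ω ∧ ∀ m ∈ N n, a m ω' = a m ω}

/-- MOD: the error in the model -/
def S_model : Prop := ∀ (p : ℝ), 1 / 2 < p → p < 1 → ∀ (N : ℕ → Finset ℕ),
  (∀ n, N n ⊆ range n) → ∀ (Ω : Type) [MeasurableSpace Ω] (P : Measure Ω) (θ : Ω → Bool)
  (s a : ℕ → Ω → Bool), Model p N P θ s a → ∀ n, P.real {ω | a n ω = θ ω} = 1 - err p N n / 2

/-- EXI: the model exists -/
def S_exists : Prop := ∀ (p : ℝ), 1 / 2 < p → p < 1 → ∀ (N : ℕ → Finset ℕ),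
  (∀ n, N n ⊆ range n) → ∃ (Ω : Type) (_ : MeasurableSpace Ω) (P : Measure Ω) (θ : Ω → Bool)
  (s a : ℕ → Ω → Bool), Model p N P θ s a

end Q100.SL
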