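import Mathlib
import Pool.Agent.Q100.SL.Stm

/-! # Basic facts on the law of the histories -/

set_option autoImplicit false

open Finset

namespace Q100.SL

variable {p : ℝ} {N N' : ℕ → Finset ℕ} {n n' : ℕ} {θ : Bool} {C z z' x : Finset ℕ}

lemma sg_pos (h0 : 1 / 2 < p) (h1 : p < 1) (θ s : Bool) : 0 < sg p θ s := by
  unfold sg; split_ifs <;> linarith

lemma sg_sum (p : ℝ) (θ : Bool) : ∑ s, sg p θ s = 1 := by
  cases θ <;> simp [sg]

lemma pact_nonneg (h0 : 1 / 2 < p) (h1 : p < 1) (a : Bool → ℝ) (θ b : Bool) :
    0 ≤ pact p a θ b := by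
  unfold pact
  refine sum_nonneg fun s _ => ?_
  split_ifs
  · exact (sg_pos h0 h1 θ s).le
  · exact le_rfl

lemma pact_sum (p : ℝ) (a : Bool → ℝ) (θ : Bool) : ∑ b, pact p a θ b = 1 := by
  unfold pact
  rw [sum_comm]
  simp only [sum_ite_eq, mem_univ, if_true]
  exact sg_sum p θ

lemma pact_ratio (h0 : 1 / 2 < p) (h1 : p < 1) (a : Bool → ℝ) (θ θ' b : Bool) :
    (1 - p) * pact p a θ b ≤ p * pact p a θ' b := by
  unfold pact
  rw [mul_sum, mul_sum]
  refine sum_le_sum fun s _ => ?_
  split_ifs
  · unfold sg; split_ifs <;> nlinarith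
  · simp

lemma law_nonneg (h0 : 1 / 2 < p) (h1 : p < 1) (N : ℕ → Finset ℕ) (n : ℕ) (θ : Bool)
    (z : Finset ℕ) : 0 ≤ law p N n θ z := by
  induction n with
  | zero => simp [law]
  | succ n ih => rw [law]; exact mul_nonneg ih (pact_nonneg h0 h1 _ _ _)

lemma law_congr (h : ∀ j < n, N' j = N j) : law p N' n = law p N n := by
  induction n with
  | zero => rfl
  | succ n ih =>
    have h1 := ih (fun j hj => h j (by omega))
    funext θ z
    rw [law, law, h1, h n (by omega)]

lemma Val.mono (h : Val N n') (hn : n ≤ n') : Val N n := fun j hj => h j (by omega)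

lemma Val.congr (h : Val N n) (he : ∀ j < n, N' j = N j) : Val N' n := fun j hj => by
  rw [he j hj]; exact h j hj

lemma mg_congr (w : Finset ℕ → ℝ) (h : z ∩ C = z' ∩ C) : mg w n C z = mg w n C z' := by
  unfold mg; rw [h]

lemma inter_eq_of_forall {C z z' : Finset ℕ} (h : ∀ j ∈ C, (j ∈ z ↔ j ∈ z')) :
    z ∩ C = z' ∩ C := by
  ext j; simp only [mem_inter]; constructor
  · rintro ⟨a, b⟩; exact ⟨(h j b).1 a, b⟩
  · rintro ⟨a, b⟩; exact ⟨(h j b).2 a, b⟩

lemma forall_of_inter_eq {C z z' : Finset ℕ} (h : z ∩ C = z' ∩ C) : ∀ j ∈ C, (j ∈ z ↔ j ∈ z') := by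
  intro j hj
  have := Finset.ext_iff.1 h j
  simpa [hj] using this

/-- `law p N n θ z` depends on `z` only below `n` -/
lemma law_eq (hv : Val N n) (h : ∀ j < n, (j ∈ z ↔ j ∈ z')) : law p N n θ z = law p N n θ z' := by
  induction n with
  | zero => rfl
  | succ n ih =>
    have h1 := ih (hv.mono (by omega)) (fun j hj => h j (by omega))
    have h2 : z ∩ N n = z' ∩ N n := inter_eq_of_forall fun j hj =>
      h j (by have := mem_range.1 (hv n (by omega) hj); omega)
    have h3 : decide (n ∈ z) = decide (n ∈ z') := by simp [h n (by omega)]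
    rw [law, law, h1, h3]
    congr 2
    funext t
    exact mg_congr _ h2

lemma law_inter (hv : Val N n) : law p N n θ (z ∩ range n) = law p N n θ z :=
  law_eq hv fun j hj => by simp [hj]

lemma law_inter' (hv : Val N n) (hn : n ≤ n') : law p N n θ (z ∩ range n') = law p N n θ z :=
  law_eq hv fun j hj => by simp; intro; omega

/-- fibres of the restriction to `range n` -/
lemma sum_fib (hn : n ≤ n') (G : Finset ℕ → ℝ) :
    ∑ z ∈ (range n').powerset, G z =
      ∑ x ∈ (range n).powerset, ∑ z ∈ (range n').powerset with z ∩ range n = x, G z := by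
  rw [sum_fiberwise_of_maps_to]
  intro z _
  exact mem_powerset.2 inter_subset_right

/-- fibres, for a condition which only depends on the restriction to `range n` -/
lemma sum_fib_filter (hn : n ≤ n') (Q : Finset ℕ → Prop) [DecidablePred Q]
    (hQ : ∀ z ⊆ range n', (Q z ↔ Q (z ∩ range n))) (G : Finset ℕ → ℝ) :
    ∑ z ∈ (range n').powerset with Q z, G z =
      ∑ x ∈ (range n).powerset with Q x, ∑ z ∈ (range n').powerset with z ∩ range n = x, G z := by
  rw [sum_filter, sum_fib hn, sum_filter]
  refine sum_congr rfl fun x hx => ?_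
  split_ifs with h
  · refine sum_congr rfl fun z hz => ?_
    obtain ⟨h1, h2⟩ := mem_filter.1 hz
    rw [if_pos ((hQ z (mem_powerset.1 h1)).2 (by rw [h2]; exact h))]
  · refine sum_eq_zero fun z hz => ?_
    obtain ⟨h1, h2⟩ := mem_filter.1 hz
    rw [if_neg (fun hc => h (by rw [← h2]; exact (hQ z (mem_powerset.1 h1)).1 hc))]

/-- two step fibres -/
lemma sum_fib_trans {n'' : ℕ} (h1 : n ≤ n') (h2 : n' ≤ n'') (x : Finset ℕ) (G : Finset ℕ → ℝ) :
    ∑ z ∈ (range n'').powerset with z ∩ range n = x, G z =
      ∑ y ∈ (range n').powerset with y ∩ range n = x,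
        ∑ z ∈ (range n'').powerset with z ∩ range n' = y, G z := by
  refine sum_fib_filter h2 _ (fun z _ => ?_) G
  have : z ∩ range n' ∩ range n = z ∩ range n := by
    rw [inter_assoc]; congr 1; exact inter_eq_right.2 (range_subset_range.2 h1)
  rw [this]

/-- a one step fibre -/
lemma sum_fib_succ (hx : x ⊆ range n) (G : Finset ℕ → ℝ) :
    ∑ z ∈ (range (n + 1)).powerset with z ∩ range n = x, G z = G x + G (insert n x) := by
  have hn : n ∉ x := fun h => by simpa using hx h
  have : ((range (n + 1)).powerset.filter fun z => z ∩ range n = x) = {x, insert n x} := by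
    ext z
    simp only [mem_filter, mem_powerset, mem_insert, mem_singleton]
    constructor
    · rintro ⟨h1, h2⟩
      by_cases h : n ∈ z
      · right
        rw [← h2]
        ext j
        simp only [mem_insert, mem_inter, mem_range]
        constructor
        · intro hj
          have := mem_range.1 (h1 hj)
          by_cases hjn : j = n
          · exact Or.inl hjn
          · exact Or.inr ⟨hj, by omega⟩
        · rintro (rfl | hj)
          · exact h
          · exact hj.1
      · left
        rw [← h2]
        ext j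
        simp only [mem_inter, mem_range]
        constructor
        · intro hj
          have := mem_range.1 (h1 hj)
          have hjn : j ≠ n := fun e => h (e ▸ hj)
          exact ⟨hj, by omega⟩
        · exact fun hj => hj.1
    · rintro (rfl | rfl)
      · exact ⟨hx.trans (range_subset_range.2 (by omega)), inter_eq_left.2 hx⟩
      · refine ⟨?_, ?_⟩
        · intro j hj
          rcases mem_insert.1 hj with rfl | hj
          · simp
          · have := mem_range.1 (hx hj); simp; omega
        · rw [insert_inter_of_notMem (by simp)]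
          exact inter_eq_left.2 hx
  rw [this, sum_pair]
  exact fun e => hn (by rw [e]; simp)

lemma law_fib_succ (hv : Val N (n + 1)) (hx : x ⊆ range n) :
    ∑ z ∈ (range (n + 1)).powerset with z ∩ range n = x, law p N (n + 1) θ z =
      law p N n θ x := by
  have hn : n ∉ x := fun h => by simpa using hx h
  rw [sum_fib_succ hx, law, law]
  have h1 : law p N n θ (insert n x) = law p N n θ x := law_eq (hv.mono (by omega)) fun j hj => by
    simp; intro; omega
  have h2 : (insert n x) ∩ N n = x ∩ N n := inter_eq_of_forall fun j hj => by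
    have := mem_range.1 (hv n (by omega) hj)
    simp; intro; omega
  have h3 : (fun t => mg (law p N n t) n (N n) (insert n x)) =
      (fun t => mg (law p N n t) n (N n) x) := by
    funext t; exact mg_congr _ h2
  rw [h1, h3, ← mul_add]
  have := pact_sum p (fun t => mg (law p N n t) n (N n) x) θ
  simp only [Fintype.sum_bool] at this
  simp only [hn, decide_false, mem_insert_self, decide_true]
  rw [add_comm, this, mul_one]

/-- the law of a continued history sums to the law of the history -/
lemma law_fib (hn : n ≤ n') (hv : Val N n') (hx : x ⊆ range n) :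
    ∑ z ∈ (range n').powerset with z ∩ range n = x, law p N n' θ z = law p N n θ x := by
  induction n', hn using Nat.le_induction with
  | base =>
    have : ((range n).powerset.filter fun z => z ∩ range n = x) = {x} := by
      ext z
      simp only [mem_filter, mem_powerset, mem_singleton]
      constructor
      · rintro ⟨h1, h2⟩; rw [← h2]; exact (inter_eq_left.2 h1).symm
      · rintro rfl; exact ⟨hx, inter_eq_left.2 hx⟩
    rw [this, sum_singleton]
  | succ n' hn ih =>
    rw [sum_fib_trans hn (Nat.le_succ n'), ← ih (hv.mono (by omega))]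
    refine sum_congr rfl fun y hy => ?_
    exact law_fib_succ hv (mem_powerset.1 (mem_filter.1 hy).1)

/-- total mass one -/
lemma law_total (hv : Val N n) : ∑ z ∈ (range n).powerset, law p N n θ z = 1 := by
  have := law_fib (p := p) (N := N) (θ := θ) (x := ∅) (Nat.zero_le n) hv (by simp)
  simpa [law] using this

/-- marginals are consistent -/
lemma mg_ext (hn : n ≤ n') (hv : Val N n') (hC : C ⊆ range n) :
    mg (law p N n' θ) n' C z = mg (law p N n θ) n C z := by
  unfold mg
  rw [sum_fib_filter hn]
  · refine sum_congr rfl fun x hx => ?_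
    exact law_fib hn hv (mem_powerset.1 (mem_filter.1 hx).1)
  · intro z _
    have : z ∩ range n ∩ C = z ∩ C := by
      rw [inter_assoc, inter_eq_right.2 hC]
    rw [this]

lemma mg_nonneg (h0 : 1 / 2 < p) (h1 : p < 1) : 0 ≤ mg (law p N n θ) n C z :=
  sum_nonneg fun _ _ => law_nonneg h0 h1 _ _ _ _

lemma mg_self (hv : Val N n) : mg (law p N n θ) n (range n) z = law p N n θ z := by
  unfold mg
  have : ((range n).powerset.filter fun x => x ∩ range n = z ∩ range n) = {z ∩ range n} := by
    ext x
    simp only [mem_filter, mem_powerset, mem_singleton]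
    constructor
    · rintro ⟨h1, h2⟩; rw [← h2]; exact (inter_eq_left.2 h1).symm
    · rintro rfl; exact ⟨inter_subset_right, by rw [inter_assoc, inter_self]⟩
  rw [this, sum_singleton, law_inter hv]

/-- the marginal on an initial segment -/
lemma mg_range (hn : n ≤ n') (hv : Val N n') :
    mg (law p N n' θ) n' (range n) z = law p N n θ z := by
  rw [mg_ext hn hv subset_rfl, mg_self (hv.mono hn)]

lemma law_ratio (h0 : 1 / 2 < p) (h1 : p < 1) (N : ℕ → Finset ℕ) (n : ℕ) (θ θ' : Bool)
    (z : Finset ℕ) : (1 - p) ^ n * law p N n θ z ≤ p ^ n * law p N n θ' z := by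
  induction n with
  | zero => simp [law]
  | succ n ih =>
    rw [law, law, pow_succ, pow_succ]
    have h2 := pact_ratio h0 h1 (fun t => mg (law p N n t) n (N n) z) θ θ' (decide (n ∈ z))
    have h3 := law_nonneg h0 h1 N n θ z
    have h4 := pact_nonneg h0 h1 (fun t => mg (law p N n t) n (N n) z) θ (decide (n ∈ z))
    have h5 := pow_pos (show 0 < 1 - p by linarith) n
    calc _ = ((1 - p) ^ n * law p N n θ z) *
          ((1 - p) * pact p (fun t => mg (law p N n t) n (N n) z) θ (decide (n ∈ z))) := by ring
      _ ≤ (p ^ n * law p N n θ' z) *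
          (p * pact p (fun t => mg (law p N n t) n (N n) z) θ' (decide (n ∈ z))) := by
        refine mul_le_mul ih h2 (mul_nonneg (by linarith) h4) ?_
        exact mul_nonneg (pow_nonneg (by linarith) n) (law_nonneg h0 h1 N n θ' z)
      _ = _ := by ring

lemma law_pos_of_ne (h0 : 1 / 2 < p) (h1 : p < 1) (h : law p N n θ z ≠ 0) (θ' : Bool) :
    0 < law p N n θ' z := by
  have h2 := law_ratio h0 h1 N n θ θ' z
  have h3 : 0 < law p N n θ z := lt_of_le_of_ne (law_nonneg h0 h1 _ _ _ _) h.symm
  have h4 := pow_pos (show 0 < 1 - p by linarith) n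
  have h5 := pow_pos (show 0 < p by linarith) n
  by_contra hc
  have h6 := mul_pos h4 h3
  nlinarith

/-- positivity is inherited by initial segments -/
lemma law_ne_of_le (hn : n ≤ n') (h : law p N n' θ z ≠ 0) : law p N n θ z ≠ 0 := by
  induction n', hn using Nat.le_induction with
  | base => exact h
  | succ n' hn ih =>
    rw [law] at h
    exact ih (left_ne_zero_of_mul h)

lemma law_le_mg (h0 : 1 / 2 < p) (h1 : p < 1) (hv : Val N n) (hC : C ⊆ range n) :
    law p N n θ z ≤ mg (law p N n θ) n C z := by
  rw [← law_inter hv]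
  unfold mg
  refine single_le_sum (f := fun x => law p N n θ x) (fun _ _ => law_nonneg h0 h1 _ _ _ _) ?_
  simp only [mem_filter, mem_powerset]
  exact ⟨inter_subset_right, by rw [inter_assoc, inter_eq_right.2 hC]⟩

lemma mg_pos (h0 : 1 / 2 < p) (h1 : p < 1) (hv : Val N n) (hC : C ⊆ range n)
    (h : law p N n θ z ≠ 0) (θ' : Bool) : 0 < mg (law p N n θ') n C z :=
  (law_pos_of_ne h0 h1 h θ').trans_le (law_le_mg h0 h1 hv hC)

/-- in the window the private signal decides -/
lemma act_win (h0 : 1 / 2 < p) (a : Bool → ℝ) (h : (1 - p) * a true < p * a false)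
    (h' : (1 - p) * a false < p * a true) (s : Bool) : act p a s = s := by
  unfold act
  cases s
  · simp only [sg, decide_eq_false_iff_not, not_le]
    norm_num
    linarith
  · simp only [sg, decide_eq_true_eq]
    norm_num
    linarith

lemma pact_win (h0 : 1 / 2 < p) (a : Bool → ℝ) (h : (1 - p) * a true < p * a false)
    (h' : (1 - p) * a false < p * a true) (θ b : Bool) : pact p a θ b = sg p θ b := by
  unfold pact
  simp only [act_win h0 a h h']
  simp

/-- the marginal on `C` and the next agent, if he observes only agents in `C` -/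
lemma mg_succ (hv : Val N (n + 1)) (hC : C ⊆ range n) (hN : N n ⊆ C) :
    mg (law p N (n + 1) θ) (n + 1) (insert n C) z = mg (law p N n θ) n C z *
      pact p (fun t => mg (law p N n t) n (N n) z) θ (decide (n ∈ z)) := by
  unfold mg
  rw [sum_mul]
  have hnC : n ∉ C := fun h => by simpa using hC h
  rw [sum_filter, sum_fib (Nat.le_succ n), sum_filter]
  refine sum_congr rfl fun x hx => ?_
  have hx' := mem_powerset.1 hx
  have hnx : n ∉ x := fun h => by simpa using hx' h
  rw [sum_fib_succ hx']
  have e1 : (x ∩ insert n C = z ∩ insert n C) ↔ (x ∩ C = z ∩ C ∧ n ∉ z) := by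
    constructor
    · intro h
      have h := forall_of_inter_eq h
      exact ⟨inter_eq_of_forall fun j hj => h j (mem_insert_of_mem hj),
        fun hz => hnx ((h n (mem_insert_self _ _)).2 hz)⟩
    · rintro ⟨h1, h2⟩
      have h1 := forall_of_inter_eq h1
      refine inter_eq_of_forall fun j hj => ?_
      rcases mem_insert.1 hj with rfl | hj
      · exact ⟨fun h => absurd h hnx, fun h => absurd h h2⟩
      · exact h1 j hj
  have e2 : (insert n x ∩ insert n C = z ∩ insert n C) ↔ (x ∩ C = z ∩ C ∧ n ∈ z) := by
    constructor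
    · intro h
      have h := forall_of_inter_eq h
      refine ⟨inter_eq_of_forall fun j hj => ?_, (h n (mem_insert_self _ _)).1 (mem_insert_self _ _)⟩
      rw [← h j (mem_insert_of_mem hj), mem_insert]
      constructor
      · exact Or.inr
      · rintro (rfl | h')
        · exact absurd hj hnC
        · exact h'
    · rintro ⟨h1, h2⟩
      have h1 := forall_of_inter_eq h1
      refine inter_eq_of_forall fun j hj => ?_
      rcases mem_insert.1 hj with rfl | hj2
      · simp [h2]
      · rw [← h1 j hj2, mem_insert]
        constructor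
        · rintro (e | h')
          · exact absurd (e ▸ hj2) hnC
          · exact h'
        · exact Or.inr
  rw [law, law]
  have h1 : law p N n θ (insert n x) = law p N n θ x := law_eq (hv.mono (by omega)) fun j hj => by
    simp; intro; omega
  have h3 : x ∩ C = z ∩ C → (fun t => mg (law p N n t) n (N n) x) =
      (fun t => mg (law p N n t) n (N n) z) := by
    intro h; funext t
    refine mg_congr _ (inter_eq_of_forall fun j hj => forall_of_inter_eq h j (hN hj))
  have h4 : (fun t => mg (law p N n t) n (N n) (insert n x)) =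
      (fun t => mg (law p N n t) n (N n) x) := by
    funext t; refine mg_congr _ (inter_eq_of_forall fun j hj => ?_)
    have : j ≠ n := fun e => hnC (e ▸ hN hj)
    simp [this]
  rw [h1, h4]
  by_cases hc : x ∩ C = z ∩ C
  · by_cases hz : n ∈ z
    · rw [if_neg (by rw [e1]; exact fun h => h.2 hz), if_pos (by rw [e2]; exact ⟨hc, hz⟩),
        if_pos hc, h3 hc]
      simp [hz, mg]
    · rw [if_pos (by rw [e1]; exact ⟨hc, hz⟩), if_neg (by rw [e2]; exact fun h => hz h.2),
        if_pos hc, h3 hc]
      simp [hz, hnx, mg]
  · rw [if_neg (by rw [e1]; exact fun h => hc h.1), if_neg (by rw [e2]; exact fun h => hc h.1),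
      if_neg hc, add_zero]

/-- the window only depends on the network up to a time after `C` -/
lemma win_ext (hn : n ≤ n') (hv : Val N' n') (he : ∀ j < n, N' j = N j) (hC : C ⊆ range n)
    (hz : z ∩ C = z' ∩ C) : Win p N' n' C z ↔ Win p N n C z' := by
  unfold Win
  rw [mg_ext hn hv hC, mg_ext hn hv hC, law_congr he, mg_congr _ hz, mg_congr _ hz]

end Q100.SL
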