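import Mathlib
import Pool.Agent.Q100.SL.Stm
import Pool.Agent.Q100.SL.Bas

/-! # The error in the model -/

set_option autoImplicit false

open Finset MeasureTheory

namespace Q100.SL

/-- the set of the agents before `n` with action `1` -/
def hh {Ω : Type} (a : ℕ → Ω → Bool) (n : ℕ) (ω : Ω) : Finset ℕ :=
  (range n).filter fun m => a m ω = true

section
variable {p : ℝ} {N : ℕ → Finset ℕ} {Ω : Type} {a : ℕ → Ω → Bool} {n : ℕ}

lemma mem_hh {ω : Ω} {m : ℕ} : m ∈ hh a n ω ↔ m < n ∧ a m ω = true := by
  simp [hh]

lemma hh_sub (ω : Ω) : hh a n ω ⊆ range n := filter_subset _ _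

lemma hh_succ_iff (ω : Ω) (z : Finset ℕ) (hz : z ⊆ range (n + 1)) :
    hh a (n + 1) ω = z ↔ hh a n ω = z ∩ range n ∧ a n ω = decide (n ∈ z) := by
  constructor
  · rintro rfl
    constructor
    · ext m
      simp only [mem_hh, mem_inter, mem_range]
      constructor
      · rintro ⟨h1, h2⟩; exact ⟨⟨by omega, h2⟩, h1⟩
      · rintro ⟨⟨_, h2⟩, h1⟩; exact ⟨h1, h2⟩
    · cases h : a n ω <;> simp [mem_hh, h]
  · rintro ⟨h1, h2⟩
    ext m
    rw [mem_hh]
    constructor
    · rintro ⟨h3, h4⟩
      by_cases hm : m = n
      · subst hm; rw [h2] at h4; simpa using h4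
      · have : m ∈ hh a n ω := mem_hh.2 ⟨by omega, h4⟩
        rw [h1] at this
        exact (mem_inter.1 this).1
    · intro h3
      have h4 := mem_range.1 (hz h3)
      refine ⟨h4, ?_⟩
      by_cases hm : m = n
      · subst hm; rw [h2]; simpa using h3
      · have : m ∈ hh a n ω := by
          rw [h1]; simp only [mem_inter, mem_range]; exact ⟨h3, by omega⟩
        exact (mem_hh.1 this).2

variable [MeasurableSpace Ω]

lemma meas_hh (h : ∀ m < n, Measurable (a m)) (z : Finset ℕ) :
    MeasurableSet {ω | hh a n ω = z} := by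
  by_cases hz : z ⊆ range n
  · have : {ω | hh a n ω = z} = ⋂ m ∈ range n, {ω | a m ω = decide (m ∈ z)} := by
      ext ω
      simp only [Set.mem_setOf_eq, Set.mem_iInter, mem_range]
      constructor
      · rintro rfl m hm
        cases h' : a m ω <;> simp [mem_hh, h', hm]
      · intro h'
        ext m
        rw [mem_hh]
        constructor
        · rintro ⟨h1, h2⟩
          have := h' m h1
          rw [h2] at this
          simpa using this.symm
        · intro h1
          have h2 := mem_range.1 (hz h1)
          exact ⟨h2, by rw [h' m h2]; simpa using h1⟩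
    rw [this]
    refine Finset.measurableSet_biInter _ fun m hm => ?_
    exact h m (mem_range.1 hm) (MeasurableSet.singleton _)
  · have : {ω | hh a n ω = z} = ∅ := by
      ext ω
      simp only [Set.mem_setOf_eq, Set.mem_empty_iff_false, iff_false]
      rintro rfl
      exact hz (hh_sub ω)
    rw [this]; exact MeasurableSet.empty

end

theorem model_claim {p : ℝ} {N : ℕ → Finset ℕ} (hN : ∀ n, N n ⊆ range n) {Ω : Type}
    [MeasurableSpace Ω] {P : Measure Ω} {θ : Ω → Bool} {s a : ℕ → Ω → Bool}
    (hM : Model p N P θ s a) (n : ℕ) :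
    (∀ m < n, Measurable (a m)) ∧ ∀ (b : Bool) (z : Finset ℕ), z ⊆ range n → ∀ (k : ℕ)
      (σ : ℕ → Bool), P.real {ω | θ ω = b ∧ hh a n ω = z ∧ ∀ i, n ≤ i → i < n + k → s i ω = σ i} =
        1 / 2 * law p N n b z * ∏ i ∈ Ico n (n + k), sg p b (σ i) := by
  have := hM.prob
  induction n with
  | zero =>
    refine ⟨fun m hm => by omega, ?_⟩
    intro b z hz k σ
    have hz' : z = ∅ := by simpa using hz
    subst hz'
    have h1 := hM.signals b k σ
    simp only [law, mul_one, zero_add]
    rw [Nat.Ico_zero_eq_range]
    simp only [sg]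
    rw [← h1]
    congr 1
    ext ω
    simp [hh]
  | succ n ih =>
    obtain ⟨ihm, ihq⟩ := ih
    -- the conditional probabilities
    have hE : ∀ (t : Bool) (ω : Ω),
        P.real {ω' | θ ω' = t ∧ s n ω' = s n ω ∧ ∀ m ∈ N n, a m ω' = a m ω} =
        1 / 2 * (mg (law p N n t) n (N n) (hh a n ω) * sg p t (s n ω)) := by
      intro t ω
      have hset : {ω' | θ ω' = t ∧ s n ω' = s n ω ∧ ∀ m ∈ N n, a m ω' = a m ω} =
          ⋃ z ∈ (range n).powerset.filter (fun x => x ∩ N n = hh a n ω ∩ N n),
            {ω' | θ ω' = t ∧ hh a n ω' = z ∧ ∀ i, n ≤ i → i < n + 1 → s i ω' = s i ω} := by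
        ext ω'
        simp only [Set.mem_setOf_eq, Set.mem_iUnion, mem_filter, mem_powerset, exists_prop]
        constructor
        · rintro ⟨h1, h2, h3⟩
          refine ⟨hh a n ω', ⟨hh_sub _, ?_⟩, h1, rfl, ?_⟩
          · refine inter_eq_of_forall fun j hj => ?_
            rw [mem_hh, mem_hh, h3 j hj]
          · intro i hi hi'
            have : i = n := by omega
            rw [this]; exact h2
        · rintro ⟨z, ⟨hz, hz'⟩, h1, h2, h3⟩
          refine ⟨h1, h3 n le_rfl (by omega), ?_⟩
          intro m hm
          have hmn := mem_range.1 (hN n hm)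
          subst h2
          have := forall_of_inter_eq hz' m hm
          rw [mem_hh, mem_hh] at this
          simp only [hmn, true_and] at this
          exact Bool.eq_iff_iff.2 this
      rw [hset, measureReal_biUnion_finset]
      · unfold mg
        rw [sum_mul, mul_sum]
        refine sum_congr rfl fun z hz => ?_
        rw [ihq t z (mem_powerset.1 (mem_filter.1 hz).1) 1 (fun i => s i ω)]
        simp
        ring
      · intro x _ y _ hxy
        refine Set.disjoint_left.2 ?_
        rintro ω' ⟨_, h1, _⟩ ⟨_, h2, _⟩
        exact hxy (h1.symm.trans h2)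
      · intro z _
        have e : {ω' | θ ω' = t ∧ hh a n ω' = z ∧ ∀ i, n ≤ i → i < n + 1 → s i ω' = s i ω} =
            {ω' | θ ω' = t} ∩ ({ω' | hh a n ω' = z} ∩ {ω' | s n ω' = s n ω}) := by
          ext ω'
          simp only [Set.mem_setOf_eq, Set.mem_inter_iff]
          refine and_congr_right fun _ => and_congr_right fun _ => ?_
          constructor
          · exact fun h => h n le_rfl (by omega)
          · intro h i hi hi'
            have : i = n := by omega
            rw [this]; exact h
        rw [e]
        exact (hM.mθ (MeasurableSet.singleton _)).inter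
          ((meas_hh ihm z).inter (hM.ms n (MeasurableSet.singleton _)))
    -- the action of agent `n`
    have hact : ∀ ω, a n ω = act p (fun t => mg (law p N n t) n (N n) (hh a n ω)) (s n ω) := by
      intro ω
      rw [Bool.eq_iff_iff, hM.bayes n ω, hE, hE]
      unfold act
      rw [decide_eq_true_eq]
      constructor
      · intro h; linarith
      · intro h; linarith
    have hmn : Measurable (a n) := by
      refine measurable_to_bool ?_
      have e : a n ⁻¹' {true} = ⋃ z ∈ (range n).powerset, ⋃ u ∈ (univ : Finset Bool).filter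
          (fun u => act p (fun t => mg (law p N n t) n (N n) z) u = true),
          ({ω | hh a n ω = z} ∩ {ω | s n ω = u}) := by
        ext ω
        simp only [Set.mem_preimage, Set.mem_singleton_iff, Set.mem_iUnion, Set.mem_inter_iff,
          Set.mem_setOf_eq, mem_filter, mem_univ, true_and, exists_prop, mem_powerset]
        constructor
        · intro h
          exact ⟨hh a n ω, hh_sub _, s n ω, by rw [← hact]; exact h, rfl, rfl⟩
        · rintro ⟨z, _, u, h1, h2, h3⟩
          rw [hact, h2, h3]; exact h1
      rw [e]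
      refine Finset.measurableSet_biUnion _ fun z _ => Finset.measurableSet_biUnion _ fun u _ => ?_
      exact (meas_hh ihm z).inter (hM.ms n (MeasurableSet.singleton _))
    have hms : ∀ m < n + 1, Measurable (a m) := by
      intro m hm
      rcases Nat.lt_succ_iff_lt_or_eq.1 hm with h | rfl
      · exact ihm m h
      · exact hmn
    refine ⟨hms, ?_⟩
    intro b z hz k σ
    have hset : {ω | θ ω = b ∧ hh a (n + 1) ω = z ∧ ∀ i, n + 1 ≤ i → i < n + 1 + k → s i ω = σ i} =
        ⋃ u ∈ (univ : Finset Bool).filter
          (fun u => act p (fun t => mg (law p N n t) n (N n) (z ∩ range n)) u = decide (n ∈ z)),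
          {ω | θ ω = b ∧ hh a n ω = z ∩ range n ∧
            ∀ i, n ≤ i → i < n + (k + 1) → s i ω = (Function.update σ n u) i} := by
      ext ω
      simp only [Set.mem_setOf_eq, Set.mem_iUnion, mem_filter, mem_univ, true_and, exists_prop]
      rw [hh_succ_iff ω z hz]
      constructor
      · rintro ⟨h1, ⟨h2, h3⟩, h4⟩
        refine ⟨s n ω, ?_, h1, h2, ?_⟩
        · rw [← h3, hact, h2]
        · intro i hi hi'
          by_cases hin : i = n
          · subst hin; simp
          · rw [Function.update_of_ne hin]; exact h4 i (by omega) (by omega)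
      · rintro ⟨u, hu, h1, h2, h3⟩
        have h4 := h3 n le_rfl (by omega)
        rw [Function.update_self] at h4
        refine ⟨h1, ⟨h2, ?_⟩, ?_⟩
        · rw [hact, h2, h4]; exact hu
        · intro i hi hi'
          have := h3 i (by omega) (by omega)
          rwa [Function.update_of_ne (by omega)] at this
    have hz2 : z ∩ range n ⊆ range n := inter_subset_right
    rw [hset, measureReal_biUnion_finset]
    · have hv : Val N (n + 1) := fun j _ => hN j
      have e1 : law p N (n + 1) b z = law p N n b (z ∩ range n) *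
          pact p (fun t => mg (law p N n t) n (N n) (z ∩ range n)) b (decide (n ∈ z)) := by
        rw [law, law_inter (hv.mono (by omega))]
        congr 2
        funext t
        refine mg_congr _ ?_
        rw [inter_assoc, inter_eq_right.2 (hN n)]
      rw [e1, pact, sum_filter, mul_sum, mul_sum, sum_mul]
      refine sum_congr rfl fun u _ => ?_
      split_ifs
      · rw [ihq b _ hz2 (k + 1) (Function.update σ n u)]
        rw [show n + (k + 1) = n + 1 + k by ring, Finset.prod_Ico_eq_prod_range,
          Finset.prod_Ico_eq_prod_range, show n + 1 + k - n = k + 1 by omega,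
          show n + 1 + k - (n + 1) = k by omega, Finset.prod_range_succ']
        simp only [add_zero, Function.update_self]
        have : ∀ i, Function.update σ n u (n + (i + 1)) = σ (n + 1 + i) := by
          intro i
          rw [Function.update_of_ne (by omega)]
          congr 1; ring
        simp only [this]
        ring
      · simp
    · intro x _ y _ hxy
      refine Set.disjoint_left.2 ?_
      rintro ω ⟨_, _, h1⟩ ⟨_, _, h2⟩
      have h3 := h1 n le_rfl (by omega)
      have h4 := h2 n le_rfl (by omega)
      rw [Function.update_self] at h3 h4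
      exact hxy (h3.symm.trans h4)
    · intro u _
      have e : {ω | θ ω = b ∧ hh a n ω = z ∩ range n ∧
            ∀ i, n ≤ i → i < n + (k + 1) → s i ω = (Function.update σ n u) i} =
          {ω | θ ω = b} ∩ ({ω | hh a n ω = z ∩ range n} ∩
            ⋂ i ∈ Ico n (n + (k + 1)), {ω | s i ω = (Function.update σ n u) i}) := by
        ext ω
        simp [and_assoc]
      rw [e]
      refine (hM.mθ (MeasurableSet.singleton _)).inter ((meas_hh ihm _).inter ?_)
      exact Finset.measurableSet_biInter _ fun i _ => hM.ms i (MeasurableSet.singleton _)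

theorem model : S_model := by
  intro p h0 h1 N hN Ω _ P θ s a hM n
  have := hM.prob
  obtain ⟨hm, hq⟩ := model_claim hN hM (n + 1)
  have hv : Val N (n + 1) := fun j _ => hN j
  have hset : {ω | a n ω = θ ω} = ⋃ z ∈ (range (n + 1)).powerset,
      {ω | θ ω = decide (n ∈ z) ∧ hh a (n + 1) ω = z ∧
        ∀ i, n + 1 ≤ i → i < n + 1 + 0 → s i ω = (fun _ => true) i} := by
    ext ω
    simp only [Set.mem_setOf_eq, Set.mem_iUnion, mem_powerset, exists_prop]
    constructor
    · intro h
      refine ⟨hh a (n + 1) ω, hh_sub _, ?_, rfl, fun i hi hi' => by omega⟩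
      rw [← h]
      cases h' : a n ω <;> simp [mem_hh, h']
    · rintro ⟨z, hz, h1, h2, _⟩
      rw [h1, ← h2]
      cases h' : a n ω <;> simp [mem_hh, h']
  rw [hset, measureReal_biUnion_finset]
  · have e : ∀ z ∈ (range (n + 1)).powerset, P.real {ω | θ ω = decide (n ∈ z) ∧
        hh a (n + 1) ω = z ∧ ∀ i, n + 1 ≤ i → i < n + 1 + 0 → s i ω = (fun _ => true) i} =
        1 / 2 * law p N (n + 1) (decide (n ∈ z)) z := by
      intro z hz
      rw [hq (decide (n ∈ z)) z (mem_powerset.1 hz) 0 (fun _ => true)]
      simp
    rw [sum_congr rfl e, ← mul_sum, err]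
    have h2 : ∑ z ∈ (range (n + 1)).powerset, law p N (n + 1) (decide (n ∈ z)) z +
        ∑ z ∈ (range (n + 1)).powerset, law p N (n + 1) (decide (n ∉ z)) z = 2 := by
      rw [← sum_add_distrib]
      have e3 : ∀ z ∈ (range (n + 1)).powerset, law p N (n + 1) (decide (n ∈ z)) z +
          law p N (n + 1) (decide (n ∉ z)) z = law p N (n + 1) true z + law p N (n + 1) false z := by
        intro z _
        by_cases h : n ∈ z
        · simp [h]
        · simp [h, add_comm]
      rw [sum_congr rfl e3, sum_add_distrib, law_total hv, law_total hv]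
      norm_num
    linarith
  · intro x _ y _ hxy
    refine Set.disjoint_left.2 ?_
    rintro ω ⟨_, h1, _⟩ ⟨_, h2, _⟩
    exact hxy (h1.symm.trans h2)
  · intro z _
    have e : {ω | θ ω = decide (n ∈ z) ∧ hh a (n + 1) ω = z ∧
        ∀ i, n + 1 ≤ i → i < n + 1 + 0 → s i ω = (fun _ => true) i} =
        {ω | θ ω = decide (n ∈ z)} ∩ {ω | hh a (n + 1) ω = z} := by
      ext ω
      simp only [Set.mem_setOf_eq, Set.mem_inter_iff]
      constructor
      · rintro ⟨h1, h2, _⟩; exact ⟨h1, h2⟩
      · rintro ⟨h1, h2⟩; exact ⟨h1, h2, fun i hi hi' => by omega⟩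
    rw [e]
    exact (hM.mθ (MeasurableSet.singleton _)).inter (meas_hh hm z)

end Q100.SL
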