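import Mathlib
import Pool.Agent.Q100.SL.Stm
import Pool.Agent.Q100.SL.Bas

/-! # Independent families -/

set_option autoImplicit false

open Finset

namespace Q100.SL

theorem prod : S_prod := by
  intro p h0 h1 Ω Ω' ι ι' _ _ W X W' X' hX hX' N n C c hv hC hc hw
  obtain ⟨N1, n1, o1, S1, f1⟩ := hX N n C c hv hC hc hw
  have hv1 : Val N1 n1 := by
    intro j hj
    by_cases hjn : j < n
    · rw [f1.ext j hjn]; exact hv j hjn
    · refine (f1.nb j (by omega) hj).2.trans ?_
      intro i hi
      rcases mem_union.1 hi with h | h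
      · have := mem_range.1 (hC h); exact mem_range.2 (by omega)
      · exact mem_range.2 (mem_Ico.1 h).2
  have hC1 : C ⊆ range n1 := hC.trans (range_subset_range.2 f1.le)
  have hw1 : Win p N1 n1 C c := (win_ext f1.le hv1 f1.ext hC rfl).2 hw
  obtain ⟨N2, n2, o2, S2, f2⟩ := hX' N1 n1 C c hv1 hC1 hc hw1
  have hle := f1.le
  have hle2 := f2.le
  have hzn : ∀ z ⊆ range n2, z ∩ C = c → (z ∩ range n1) ∩ C = c := by
    intro z _ h
    rw [inter_assoc, inter_eq_right.2 hC1, h]
  have hv2 : Val N2 n2 := by
    intro j hj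
    by_cases hjn : j < n1
    · rw [f2.ext j hjn]; exact hv1 j hjn
    · refine (f2.nb j (by omega) hj).2.trans ?_
      intro i hi
      rcases mem_union.1 hi with h | h
      · have := mem_range.1 (hC1 h); exact mem_range.2 (by omega)
      · exact mem_range.2 (mem_Ico.1 h).2
  have hl : ∀ z, law p N2 n2 true z ≠ 0 → law p N1 n1 true (z ∩ range n1) ≠ 0 := by
    intro z hz
    rw [law_inter hv1, ← law_congr f2.ext]
    exact law_ne_of_le f2.le hz
  refine ⟨N2, n2, Sum.elim o1 o2, S1 ∪ S2, ⟨by omega, ?_, ?_, ?_, ?_, ?_, ?_, ?_, ?_⟩⟩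
  · intro j hj
    rw [f2.ext j (by omega), f1.ext j hj]
  · intro j hj hj'
    by_cases hjn : j < n1
    · rw [f2.ext j hjn]; exact f1.nb j hj hjn
    · have := f2.nb j (by omega) hj'
      refine ⟨this.1, this.2.trans ?_⟩
      exact union_subset_union_right (Ico_subset_Ico_left f1.le)
  · rintro (i | i)
    · have := f1.out i; simp only [Sum.elim_inl]; omega
    · have := f2.out i; simp only [Sum.elim_inr]; omega
  · refine union_subset (f1.sc.trans (Ico_subset_Ico_right f2.le))
      (f2.sc.trans (Ico_subset_Ico_left f1.le))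
  · intro j hj
    rcases mem_union.1 hj with h | h
    · rw [f2.ext j (mem_Ico.1 (f1.sc h)).2]; exact f1.scn j h
    · exact f2.scn j h
  · intro x hx hxC θ F
    rw [sum_fib_trans f1.le f2.le]
    have key : ∀ y ∈ ((range n1).powerset.filter fun y => y ∩ range n = x),
        ∑ z ∈ (range n2).powerset with z ∩ range n1 = y,
          law p N2 n2 θ z * F (fun i => decide (Sum.elim o1 o2 i ∈ z)) =
        law p N1 n1 θ y * ∑ w2, W' θ w2 *
          F (Sum.elim (fun i => decide (o1 i ∈ y)) (fun i => X' i w2)) := by
      intro y hy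
      obtain ⟨hy1, hy2⟩ := mem_filter.1 hy
      have hy1 := mem_powerset.1 hy1
      have hyC : y ∩ C = c := by
        rw [← hxC, ← hy2, inter_assoc, inter_eq_right.2 hC]
      have := f2.lw y hy1 hyC θ (fun Y => F (Sum.elim (fun i => decide (o1 i ∈ y)) Y))
      rw [← this]
      refine sum_congr rfl fun z hz => ?_
      obtain ⟨hz1, hz2⟩ := mem_filter.1 hz
      congr 2
      funext i
      rcases i with i | i
      · have ho := (f1.out i).2
        simp only [Sum.elim_inl]
        rw [decide_eq_decide, ← hz2, mem_inter, mem_range]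
        exact ⟨fun h => ⟨h, ho⟩, fun h => h.1⟩
      · rfl
    rw [sum_congr rfl key]
    simp_rw [mul_sum]
    rw [sum_comm]
    have key2 : ∀ w2, ∑ y ∈ (range n1).powerset with y ∩ range n = x,
        law p N1 n1 θ y * (W' θ w2 * F (Sum.elim (fun i => decide (o1 i ∈ y)) (fun i => X' i w2))) =
        W' θ w2 * (law p N n θ x * ∑ w1, W θ w1 *
          F (Sum.elim (fun i => X i w1) (fun i => X' i w2))) := by
      intro w2
      rw [← f1.lw x hx hxC θ (fun Y => F (Sum.elim Y (fun i => X' i w2))), mul_sum]
      refine sum_congr rfl fun y _ => ?_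
      ring
    simp_rw [key2]
    rw [Fintype.sum_prod_type_right]
    refine sum_congr rfl fun w2 _ => ?_
    rw [mul_sum, mul_sum]
    refine sum_congr rfl fun w1 _ => ?_
    have : (Sum.elim (fun i => X i w1) (fun i => X' i w2)) =
        (fun i => Sum.elim (fun i (ω : Ω × Ω') => X i ω.1) (fun i ω => X' i ω.2) i (w1, w2)) := by
      funext i
      rcases i with i | i <;> rfl
    rw [this]
    ring
  · intro z hz hzC hlz hS i
    rcases i with i | i
    · have := f1.one (z ∩ range n1) inter_subset_right (hzn z hz hzC) (hl z hlz)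
        (subset_inter ((subset_union_left).trans hS)
          (f1.sc.trans (fun j hj => mem_range.2 (mem_Ico.1 hj).2))) i
      exact (mem_inter.1 this).1
    · exact f2.one z hz hzC hlz (subset_union_right.trans hS) i
  · intro z hz hzC hlz hS i
    rcases i with i | i
    · have := f1.zero (z ∩ range n1) inter_subset_right (hzn z hz hzC) (hl z hlz)
        (disjoint_of_subset_right inter_subset_left
          (disjoint_of_subset_left subset_union_left hS)) i
      intro hi
      exact this (mem_inter.2 ⟨hi, mem_range.2 (f1.out i).2⟩)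
    · exact f2.zero z hz hzC hlz (disjoint_of_subset_left subset_union_right hS) i

end Q100.SL
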