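import Mathlib
import Pool.Agent.Q100.SL.Stm
import Pool.Agent.Q100.SL.Bas

/-! # The trivial closures and a single scout -/

set_option autoImplicit false

open Finset

namespace Q100.SL

theorem rlLaw : S_law := by
  intro p Ω Ω' ι ι' _ _ W X W' X' r h hF N n C c hv hC hc hw
  obtain ⟨N', n', o, S, hf⟩ := h N n C c hv hC hc hw
  refine ⟨N', n', fun i => o (r i), S, ⟨hf.le, hf.ext, hf.nb, fun i => hf.out _, hf.sc, hf.scn,
    ?_, fun z h1 h2 h3 h4 i => hf.one z h1 h2 h3 h4 _, fun z h1 h2 h3 h4 i => hf.zero z h1 h2 h3 h4 _⟩⟩
  intro x hx hxC θ F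
  rw [← hF θ F]
  exact hf.lw x hx hxC θ (fun Y => F (fun i => Y (r i)))

theorem rlEmpty : S_empty := by
  intro p N n C c hv hC hc hw
  refine ⟨N, n, fun i => i.elim, ∅, ⟨le_rfl, fun _ _ => rfl, fun j h1 h2 => by omega,
    fun i => i.elim, by simp, by simp, ?_, fun _ _ _ _ _ i => i.elim, fun _ _ _ _ _ i => i.elim⟩⟩
  intro x hx hxC θ F
  have : ((range n).powerset.filter fun z => z ∩ range n = x) = {x} := by
    ext z
    simp only [mem_filter, mem_powerset, mem_singleton]
    constructor
    · rintro ⟨h1, h2⟩; rw [← h2]; exact (inter_eq_left.2 h1).symm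
    · rintro rfl; exact ⟨hx, inter_eq_left.2 hx⟩
  rw [this, sum_singleton]
  simp only [univ_unique, sum_singleton, one_mul]
  congr 2
  funext i
  exact i.elim

theorem rlScout : S_scout := by
  intro p h0 h1 N n C c hv hC hc hw
  have hu : Function.update N n C n = C := by simp
  have he : ∀ j < n, Function.update N n C j = N j := fun j hj => by
    simp [Function.update, show j ≠ n by omega]
  have hl : law p (Function.update N n C) n = law p N n := law_congr he
  have key : ∀ z, z ∩ C = c → ∀ θ b, pact p (fun t => mg (law p (Function.update N n C) n t) n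
      (Function.update N n C n) z) θ b = sg p θ b := by
    intro z hz θ b
    have hz' : z ∩ C = c ∩ C := by rw [hz, inter_eq_left.2 hc]
    apply pact_win h0
    · rw [hl, hu, mg_congr _ hz', mg_congr _ hz']; exact hw.1
    · rw [hl, hu, mg_congr _ hz', mg_congr _ hz']; exact hw.2
  refine ⟨Function.update N n C, n + 1, fun _ => n, {n}, ⟨by omega, he, ?_, fun _ => by simp, ?_, ?_,
    ?_, ?_, ?_⟩⟩
  · intro j h2 h3
    have : j = n := by omega
    subst this
    rw [hu]; simp
  · simp
  · intro j hj
    rw [mem_singleton.1 hj, hu]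
  · intro x hx hxC θ F
    have hn : n ∉ x := fun h => by simpa using hx h
    rw [sum_fib_succ hx, law, law, hl]
    have e1 : law p N n θ (insert n x) = law p N n θ x := law_eq hv fun j hj => by
      simp; intro; omega
    have hiC : (insert n x) ∩ C = c := by
      rw [← hxC]
      refine inter_eq_of_forall fun j hj => ?_
      have := mem_range.1 (hC hj)
      simp; intro; omega
    have k1 := key x hxC θ
    have k2 := key (insert n x) hiC θ
    rw [hl] at k1 k2
    rw [k1, k2, e1]
    simp only [hn, decide_false, mem_insert_self, decide_true, Fintype.sum_bool]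
    ring
  · intro z _ _ _ hS _
    exact hS (mem_singleton_self n)
  · intro z _ _ _ hS _ h
    exact disjoint_left.1 hS (mem_singleton_self n) h

end Q100.SL
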