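import Mathlib
import Pool.Agent.Q100.SL.Stm
import Pool.Agent.Q100.SL.Bas

/-! # Scouts are independent private signals -/

set_option autoImplicit false

open Finset

namespace Q100.SL

theorem scoutmg : S_scoutmg := by
  intro p h0 h1 N n m hv C Z z hmn
  induction n, hmn using Nat.le_induction generalizing Z z with
  | base =>
    intro hC hZ hN hz hw θ
    have : Z = ∅ := by simpa using hZ
    subst this
    simp
  | succ n hmn ih =>
    intro hC hZ hN hz hw θ
    have hv' : Val N n := hv.mono (by omega)
    have hCn : C ⊆ range n := hC.trans (range_subset_range.2 hmn)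
    have hzC : z ∩ C = (z ∩ range n) ∩ C := by
      rw [inter_assoc, inter_eq_right.2 hCn]
    have hw' : Win p N n C (z ∩ range n) :=
      (win_ext (Nat.le_succ n) hv (fun _ _ => rfl) hCn hzC).1 hw
    have hmr : range m ⊆ range n := range_subset_range.2 hmn
    have ih' := ih hv' (Z.erase n) (z ∩ range n) hC (by
      intro j hj
      obtain ⟨h1, h2⟩ := mem_erase.1 hj
      have := mem_Ico.1 (hZ h2)
      exact mem_Ico.2 ⟨this.1, by omega⟩) (fun j hj => hN j (mem_of_mem_erase hj))
      inter_subset_right hw' θ
    have hZ' : Z.erase n ⊆ range n := by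
      intro j hj
      obtain ⟨h1, h2⟩ := mem_erase.1 hj
      have := mem_Ico.1 (hZ h2)
      exact mem_range.2 (by omega)
    have hprod : ∏ j ∈ Z.erase n, sg p θ (decide (j ∈ z ∩ range n)) =
        ∏ j ∈ Z.erase n, sg p θ (decide (j ∈ z)) := by
      refine prod_congr rfl fun j hj => ?_
      have := hZ' hj
      congr 1
      rw [decide_eq_decide, mem_inter]
      exact ⟨fun h => h.1, fun h => ⟨h, this⟩⟩
    have hD : range m ∪ Z.erase n ⊆ range n := union_subset hmr hZ'
    have e1 : mg (law p N n θ) n (range m ∪ Z.erase n) (z ∩ range n) =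
        mg (law p N n θ) n (range m ∪ Z.erase n) z := mg_congr _ (by
      rw [inter_assoc, inter_eq_right.2 hD])
    have e2 : mg (law p N n θ) n (range m) (z ∩ range n) =
        mg (law p N (n + 1) θ) (n + 1) (range m) z := by
      rw [mg_ext (Nat.le_succ n) hv hmr]
      exact mg_congr _ (by rw [inter_assoc, inter_eq_right.2 hmr])
    rw [hprod, e1, e2] at ih'
    by_cases hn : n ∈ Z
    · have hZe : range m ∪ Z = insert n (range m ∪ Z.erase n) := by
        rw [← union_insert, insert_erase hn]
      have hNn : N n = C := hN n hn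
      rw [hZe, mg_succ hv hD (by rw [hNn]; exact hC.trans subset_union_left), ih',
        ← mul_prod_erase Z _ hn]
      have : pact p (fun t => mg (law p N n t) n (N n) z) θ (decide (n ∈ z)) =
          sg p θ (decide (n ∈ z)) := by
        have e3 : ∀ t, mg (law p N n t) n (N n) z = mg (law p N n t) n C (z ∩ range n) := by
          intro t; rw [hNn]; exact mg_congr _ hzC
        simp only [e3]
        exact pact_win h0 _ hw'.1 hw'.2 _ _
      rw [this]
      ring
    · rw [erase_eq_of_notMem hn] at ih' hD
      rw [mg_ext (Nat.le_succ n) hv hD]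
      exact ih'

end Q100.SL
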