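import Mathlib
import Pool.Agent.Q100.SL.Stm
import Pool.Agent.Q100.SL.Bas
import Pool.Agent.Q100.SL.Sco
import Pool.Agent.Q100.SL.Pro
import Pool.Agent.Q100.SL.Smg
import Pool.Agent.Q100.SL.Mod
import Pool.Agent.Q75.SL.ADM
import Pool.Agent.Q75.SL.MAJ
import Pool.Agent.Q75.SL.COP
import Pool.Agent.Q26.SL.BIT
import Pool.Agent.Q26.SL.SCS
import Pool.Agent.Q26.SL.INF
import Pool.Agent.Q26.SL.AGE
import Pool.Agent.Q26.SL.ATO
import Pool.Agent.Q26.SL.STP
import Pool.Agent.Q26.SL.EXI
import Pool.Agent.Q40.SL.CNT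
import Pool.Agent.Q40.SL.KAP
import Pool.Agent.Q40.SL.NUM
import Pool.Agent.Q40.SL.OFF
import Pool.Agent.Q261.SL.Admf
import Pool.Agent.Q162.SL.ADD
import Pool.Agent.Q162.SL.ADG
import Pool.Agent.Q24.SL.Blk
import Pool.Agent.Q24.SL.BC

/-! # Assembly: asymptotic learning in a deterministic network with bounded signals

Co-authors: helper75 (decision rules, majorities, gadget copies), helper26 (new agents, atoms,
stages, infinite network, existence of the model), helper40 (counting, the law of the gadget,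
numbers, offsets), helper24 (blocks, Bhattacharyya coefficients), helper162 and helper261
(inequalities of the gadget), helper100. -/

set_option autoImplicit false

open Finset MeasureTheory

namespace Q100.SL

theorem learning_of (hg : S_gadget) (hi : S_inf) (hx : S_exists) : ∃ N : ℕ → Finset ℕ,
    (∀ n, N n ⊆ range n) ∧
    (∃ (Ω : Type) (_ : MeasurableSpace Ω) (P : Measure Ω) (θ : Ω → Bool) (s a : ℕ → Ω → Bool),
      Model (51 / 100) N P θ s a) ∧
    ∀ (Ω : Type) (_ : MeasurableSpace Ω) (P : Measure Ω) (θ : Ω → Bool) (s a : ℕ → Ω → Bool),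
      Model (51 / 100) N P θ s a →
      Filter.Tendsto (fun n => P.real {ω | a n ω = θ ω}) Filter.atTop (nhds 1) := by
  obtain ⟨N, hN, ht⟩ := hi (51 / 100) (by norm_num) (by norm_num) hg
  refine ⟨N, hN, hx (51 / 100) (by norm_num) (by norm_num) N hN, ?_⟩
  intro Ω mΩ P θ s a hM
  have h := model (51 / 100) (by norm_num) (by norm_num) N hN Ω P θ s a hM
  simp only [h]
  have := (ht.div_const 2).const_sub 1
  simpa using this

theorem s_bits : S_bits := Q26.SL.bits rlEmpty prod rlLaw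

theorem s_adm : S_adm := Q75.SL.adm Q26.SL.agent rlLaw

theorem s_copy : S_copy := Q75.SL.copy prod rlLaw s_bits s_adm Pool.Agent.Q261.SL.admf
  Pool.Agent.Q162.SL.admd Pool.Agent.Q162.SL.admg

theorem s_num : S_num := Pool.Agent.Q40.SL.num rlScout
  (Q75.SL.maj7 rlScout s_bits Q26.SL.agent rlLaw Pool.Agent.Q40.SL.count)
  (Q75.SL.maj3 s_bits s_adm rlLaw)

theorem s_gadget : S_gadget := Q75.SL.gadget prod rlLaw s_copy
  (Pool.Agent.Q40.SL.kappa Pool.Agent.Q40.SL.count) s_num

theorem s_step : S_step := Q26.SL.step Q26.SL.scouts (Q24.SL.blocks Q24.SL.blk)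
  (Q24.SL.bcscouts scoutmg) Q24.SL.bcmono
  (Q26.SL.atom Pool.Agent.Q40.SL.off.1 Pool.Agent.Q40.SL.off.2 scoutmg) Q24.SL.err_le

theorem learning : ∃ N : ℕ → Finset ℕ,
    (∀ n, N n ⊆ range n) ∧
    (∃ (Ω : Type) (_ : MeasurableSpace Ω) (P : Measure Ω) (θ : Ω → Bool) (s a : ℕ → Ω → Bool),
      Model (51 / 100) N P θ s a) ∧
    ∀ (Ω : Type) (_ : MeasurableSpace Ω) (P : Measure Ω) (θ : Ω → Bool) (s a : ℕ → Ω → Bool),
      Model (51 / 100) N P θ s a →
      Filter.Tendsto (fun n => P.real {ω | a n ω = θ ω}) Filter.atTop (nhds 1) :=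
  learning_of s_gadget (Q26.SL.inf s_step) Q26.SL.exists_model

end Q100.SL
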